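import Pool.Agent.Helper65.CC.Quadric

/-!
# Systems of linear equations over an arbitrary field
-/

namespace Pool.Agent.Helper65.CC

open MvPolynomial Pool.Agent.Helper87.CC

noncomputable section

variable {K : Type} [Field K]
variable {E : Type} [CommRing E] [Algebra K E]
  {G : ∀ (R : Type) [CommRing R] [Algebra K R], Prop}

theorem linear_mem (hG : KOps K G) (hE : G E) (m : ℕ) :
    ∀ L : Set (MvPolynomial (Fin m) K), (∀ l ∈ L, l.totalDegree ≤ 1) → (V E L).Mem G := by
  induction m with
  | zero =>
    intro L _
    by_cases h : ∀ l ∈ L, l = 0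
    · exact mem_point hG hE _ h
    · push Not at h
      obtain ⟨l, hl, h0⟩ := h
      obtain ⟨c, rfl⟩ := C_surjective (Fin 0) l
      exact mem_unit hG _ c (fun h => h0 (by rw [h, C_0])) hl
  | succ n ih =>
    intro L hL
    by_cases hA : ∃ l ∈ L, ∃ i, coeff (Finsupp.single i 1) l ≠ 0
    · -- elimination of a variable
      obtain ⟨l, hl, i, hi⟩ := hA
      set e : Fin (n + 1) ≃ Fin (n + 1) := Equiv.swap 0 i with he
      have hdeg : ∀ p : MvPolynomial (Fin (n + 1)) K, (rename e p).totalDegree ≤ p.totalDegree :=
        fun p => totalDegree_rename_le _ _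
      obtain ⟨a, g, hg, hag⟩ := decomp1 (rename e l) ((hdeg l).trans (hL l hl))
      have ha : a ≠ 0 := by
        have h1 : coeff (Finsupp.single 0 1) (rename e l) = coeff (Finsupp.single i 1) l := by
          have h2 := coeff_rename_mapDomain e e.injective l (Finsupp.single i 1)
          rw [Finsupp.mapDomain_single, he, Equiv.swap_apply_right] at h2
          exact h2
        rw [hag, coeff_add, coeff_rename_succ, add_zero, coeff_C_mul, coeff_X, if_pos rfl,
          mul_one] at h1
        rw [h1]
        exact hi
      refine KFn.Mem.of_iso (isoRename e L) (KFn.Mem.of_iso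
        (isoElim _ (C (-a⁻¹) * g) ?_) ?_)
      · intro R _ _ x hx
        have h1 := hx _ ⟨l, hl, rfl⟩
        rw [hag, map_add, map_mul, aeval_X, algHom_C, aeval_rename] at h1
        rw [map_mul, algHom_C, map_neg]
        have h2 : algebraMap K R a⁻¹ * algebraMap K R a = 1 := by
          rw [← map_mul, inv_mul_cancel₀ ha, map_one]
        change _ + aeval (fun i => x (Fin.succ i)) g = 0 at h1
        linear_combination (algebraMap K R a⁻¹) * h1 - x 0 * h2
      · have hs : ∀ j, ((Fin.cons (C (-a⁻¹) * g) X : Fin (n + 1) → MvPolynomial (Fin n) K)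
            j).totalDegree ≤ 1 := by
          intro j
          refine Fin.cases ?_ (fun k => ?_) j
          · rw [Fin.cons_zero]
            refine (totalDegree_mul _ _).trans ?_
            rw [totalDegree_C, zero_add]
            exact hg
          · rw [Fin.cons_succ, totalDegree_X]
        apply ih
        rintro _ ⟨_, ⟨p, hp, rfl⟩, rfl⟩
        exact (totalDegree_aeval_le _ hs _).trans ((hdeg p).trans (hL p hp))
    · push Not at hA
      have hC : ∀ l ∈ L, l = C (coeff 0 l) := fun l hl => eq_C_of_coeff l (hL l hl) (hA l hl)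
      by_cases hB : ∃ l ∈ L, coeff 0 l ≠ 0
      · obtain ⟨l, hl, h0⟩ := hB
        exact mem_unit hG _ _ h0 (by rw [← hC l hl]; exact hl)
      · push Not at hB
        have hzero : ∀ l ∈ L, l = 0 := fun l hl => by rw [hC l hl, hB l hl, C_0]
        refine KFn.Mem.of_iso (isoCongr L ∅ ?_) (mem_empty hG hE _)
        intro R _ _ x
        constructor
        · intro _ l hl
          exact hl.elim
        · intro _ l hl
          rw [hzero l hl, map_zero]

/-- **Linear systems over an arbitrary field.** -/
theorem linear (hG : KOps K G) (hE : G E) (m : ℕ)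
    (L : Finset (MvPolynomial (Fin m) K)) (hL : ∀ l ∈ L, l.totalDegree ≤ 1) :
    G (MvPolynomial (Fin m) E ⧸ Ideal.span
      (MvPolynomial.map (algebraMap K E) '' (L : Set (MvPolynomial (Fin m) K)))) := by
  obtain ⟨b, hb⟩ := rep_V E (L : Set (MvPolynomial (Fin m) K))
  have : Algebra.FiniteType K E := hG.ft E hE
  exact linear_mem hG hE m L hL _ b
    (KFn.ft_quot (Algebra.FiniteType.trans (S := E) inferInstance inferInstance) _) hb

end

end Pool.Agent.Helper65.CC
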