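import Pool.Agent.Helper65.CC.Variety

/-!
# Affine quadrics over algebraically closed fields
-/

namespace Pool.Agent.Helper65.CC

open MvPolynomial Pool.Agent.Helper87.CC

noncomputable section

variable {K : Type} [Field K]

section Degree

theorem totalDegree_aeval_le {m n : ℕ} (s : Fin m → MvPolynomial (Fin n) K)
    (hs : ∀ i, (s i).totalDegree ≤ 1) (p : MvPolynomial (Fin m) K) :
    (aeval s p).totalDegree ≤ p.totalDegree := by
  rw [aeval_def, eval₂_eq]
  apply totalDegree_finsetSum_le
  intro d hd
  refine (totalDegree_mul _ _).trans ?_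
  have h1 : (algebraMap K (MvPolynomial (Fin n) K) (coeff d p)).totalDegree = 0 :=
    totalDegree_C _
  rw [h1, zero_add]
  refine (totalDegree_finsetProd _ _).trans ?_
  refine le_trans ?_ (le_totalDegree hd)
  rw [Finsupp.sum]
  apply Finset.sum_le_sum
  intro i _
  refine (totalDegree_pow _ _).trans ?_
  calc d i * (s i).totalDegree ≤ d i * 1 := Nat.mul_le_mul_left _ (hs i)
    _ = d i := mul_one _

theorem finSuccEquiv_rename_succ {n : ℕ} (g : MvPolynomial (Fin n) K) :
    finSuccEquiv K n (rename Fin.succ g) = Polynomial.C g := by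
  induction g using MvPolynomial.induction_on with
  | C a =>
    rw [rename_C]
    exact (finSuccEquiv K n).commutes a
  | add p q hp hq => rw [map_add, map_add, hp, hq, map_add]
  | mul_X p i hp => rw [map_mul, map_mul, hp, rename_X, finSuccEquiv_X_succ, map_mul]

theorem eq_sum {n : ℕ} (f : MvPolynomial (Fin (n + 1)) K) (N : ℕ) (hN : f.totalDegree < N) :
    f = ∑ k ∈ Finset.range N, rename Fin.succ ((finSuccEquiv K n f).coeff k) * X 0 ^ k := by
  apply (finSuccEquiv K n).injective
  rw [map_sum]
  simp_rw [map_mul, map_pow, finSuccEquiv_rename_succ, finSuccEquiv_X_zero]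
  apply Polynomial.as_sum_range_C_mul_X_pow'
  rw [natDegree_finSuccEquiv]
  exact lt_of_le_of_lt (degreeOf_le_totalDegree f 0) hN

theorem coeff_degree {n : ℕ} (f : MvPolynomial (Fin (n + 1)) K) (N k : ℕ)
    (hN : f.totalDegree ≤ N + k) : ((finSuccEquiv K n f).coeff k).totalDegree ≤ N := by
  by_cases h : (finSuccEquiv K n f).coeff k = 0
  · rw [h, totalDegree_zero]
    exact Nat.zero_le _
  · have := totalDegree_coeff_finSuccEquiv_add_le f k h
    omega

theorem decomp1 {n : ℕ} (l : MvPolynomial (Fin (n + 1)) K) (hl : l.totalDegree ≤ 1) :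
    ∃ (a : K) (g : MvPolynomial (Fin n) K), g.totalDegree ≤ 1 ∧
      l = C a * X 0 + rename Fin.succ g := by
  have h1 := eq_sum l 2 (by omega)
  have h2 : ((finSuccEquiv K n l).coeff 1).totalDegree = 0 :=
    Nat.le_zero.1 (coeff_degree l 0 1 (by omega))
  obtain ⟨a, ha⟩ : ∃ a, (finSuccEquiv K n l).coeff 1 = C a :=
    ⟨_, totalDegree_eq_zero_iff_eq_C.1 h2⟩
  refine ⟨a, (finSuccEquiv K n l).coeff 0, coeff_degree l 1 0 (by omega), ?_⟩
  rw [Finset.sum_range_succ, Finset.sum_range_one, ha, rename_C, pow_zero, mul_one, pow_one] at h1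
  conv_lhs => rw [h1]
  ring

theorem decomp2 {n : ℕ} (f : MvPolynomial (Fin (n + 1)) K) (hf : f.totalDegree ≤ 2) :
    ∃ (a : K) (l g : MvPolynomial (Fin n) K), l.totalDegree ≤ 1 ∧ g.totalDegree ≤ 2 ∧
      f = C a * X 0 ^ 2 + rename Fin.succ l * X 0 + rename Fin.succ g := by
  have h1 := eq_sum f 3 (by omega)
  have h2 : ((finSuccEquiv K n f).coeff 2).totalDegree = 0 :=
    Nat.le_zero.1 (coeff_degree f 0 2 (by omega))
  obtain ⟨a, ha⟩ : ∃ a, (finSuccEquiv K n f).coeff 2 = C a :=
    ⟨_, totalDegree_eq_zero_iff_eq_C.1 h2⟩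
  refine ⟨a, (finSuccEquiv K n f).coeff 1, (finSuccEquiv K n f).coeff 0,
    coeff_degree f 1 1 (by omega), coeff_degree f 2 0 (by omega), ?_⟩
  rw [Finset.sum_range_succ, Finset.sum_range_succ, Finset.sum_range_one, ha, rename_C, pow_zero,
    mul_one, pow_one] at h1
  conv_lhs => rw [h1]
  ring

theorem coeff_rename_succ {n : ℕ} (g : MvPolynomial (Fin n) K) :
    coeff (Finsupp.single 0 1) (rename Fin.succ g) = 0 := by
  apply coeff_rename_eq_zero
  intro u hu
  exfalso
  have h1 := DFunLike.congr_fun hu 0
  rw [Finsupp.mapDomain_of_notMem_range, Finsupp.single_eq_same] at h1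
  · exact zero_ne_one h1
  · rintro ⟨i, hi⟩
    exact Fin.succ_ne_zero i hi

theorem eq_C_of_coeff {m : ℕ} (l : MvPolynomial (Fin m) K) (hl : l.totalDegree ≤ 1)
    (h : ∀ i, coeff (Finsupp.single i 1) l = 0) : l = C (coeff 0 l) := by
  ext d
  rw [coeff_C]
  split_ifs with h0
  · rw [h0]
  · by_contra hne
    have hd : d ∈ l.support := mem_support_iff.2 hne
    have h1 : (d.sum fun _ e => e) ≤ 1 := (le_totalDegree hd).trans hl
    obtain ⟨i, hi⟩ : ∃ i, d i ≠ 0 := by
      by_contra hcon
      push Not at hcon
      exact h0 (Finsupp.ext fun i => (hcon i).symm)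
    have h2 : d = Finsupp.single i 1 := by
      rw [Finsupp.sum_fintype _ _ (fun _ => rfl)] at h1
      ext j
      by_cases hj : j = i
      · subst hj
        rw [Finsupp.single_eq_same]
        have : d j ≤ ∑ x, d x := Finset.single_le_sum (fun _ _ => Nat.zero_le _)
          (Finset.mem_univ j)
        omega
      · rw [Finsupp.single_eq_of_ne hj]
        have h4 : d i + d j ≤ ∑ x, d x := by
          rw [← Finset.sum_pair (Ne.symm hj) (f := fun x => d x)]
          exact Finset.sum_le_sum_of_subset (Finset.subset_univ _)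
        omega
    exact hne (h2 ▸ h i)

end Degree

variable {E : Type} [CommRing E] [Algebra K E]
  {G : ∀ (R : Type) [CommRing R] [Algebra K R], Prop}

/-- the coordinate given by a polynomial -/
def polyCoord {m : ℕ} (I : Set (MvPolynomial (Fin m) K)) (l : MvPolynomial (Fin m) K) :
    KFn.Coord (V E I) where
  val p := aeval p.1.2 l
  nat _ _ := comp_aeval_apply _ _ _

/-- the induction hypothesis -/
def Quadrics (G : ∀ (R : Type) [CommRing R] [Algebra K R], Prop) (E : Type) [CommRing E]
    [Algebra K E] (m : ℕ) : Prop :=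
  ∀ (L : Set (MvPolynomial (Fin m) K)) (f : MvPolynomial (Fin m) K),
    (∀ l ∈ L, l.totalDegree ≤ 1) → f.totalDegree ≤ 2 → (V E (insert f L)).Mem G

theorem coord_cls_mem {n : ℕ} (ih : Quadrics G E n) (l : MvPolynomial (Fin n) K)
    (hl : l.totalDegree ≤ 1) : ((V E (∅ : Set (MvPolynomial (Fin n) K))).cls
      (polyCoord ∅ l)).Mem G := by
  refine KFn.Mem.of_iso (F' := V E (insert 0 {l})) ?_
    (ih {l} 0 (fun l' hl' => by rw [Set.mem_singleton_iff.1 hl']; exact hl) (by simp))
  exact
    { hom := fun p => ⟨p.1.1, by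
        intro l' hl'
        rcases Set.mem_insert_iff.1 hl' with h | h
        · rw [h, map_zero]
        · rw [Set.mem_singleton_iff.1 h]; exact p.2⟩
      inv := fun q => ⟨⟨q.1, fun _ h => h.elim⟩,
        q.2 l (Set.mem_insert_of_mem _ (Set.mem_singleton l))⟩
      inv_hom := fun _ => rfl
      hom_inv := fun _ => rfl
      nat := fun _ _ => rfl }

theorem mem_lin (hG : KOps K G) (hE : G E) {n : ℕ} (ih : Quadrics G E n)
    (l g : MvPolynomial (Fin n) K) (hl : l.totalDegree ≤ 1) (hg : g.totalDegree ≤ 2) :
    (V E {rename Fin.succ l * X 0 + rename Fin.succ g}).Mem G := by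
  set F : MvPolynomial (Fin (n + 1)) K := rename Fin.succ l * X 0 + rename Fin.succ g with hF
  have hev : ∀ (R : Type) [CommRing R] [Algebra K R] (x : Fin (n + 1) → R),
      aeval x F = aeval (fun i => x (Fin.succ i)) l * x 0 + aeval (fun i => x (Fin.succ i)) g := by
    intro R _ _ x
    rw [hF, map_add, map_mul, aeval_X, aeval_rename, aeval_rename]
    rfl
  have hev' : ∀ (R : Type) [CommRing R] [Algebra K R] (x0 : R) (y : Fin n → R),
      aeval (Fin.cons x0 y : Fin (n + 1) → R) F = aeval y l * x0 + aeval y g := by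
    intro R _ _ x0 y
    rw [hev]
    rfl
  refine KFn.Mem.glue hG (polyCoord {F} (rename Fin.succ l)) ?_ ?_
  · -- the open part
    obtain ⟨b, hb⟩ := rep_V E (∅ : Set (MvPolynomial (Fin n) K))
    have : Algebra.FiniteType K E := hG.ft E hE
    have hft : Algebra.FiniteType K (MvPolynomial (Fin n) E ⧸
        Ideal.span (MvPolynomial.map (algebraMap K E) '' (∅ : Set (MvPolynomial (Fin n) K)))) :=
      KFn.ft_quot (Algebra.FiniteType.trans (S := E) inferInstance inferInstance) _
    refine KFn.Mem.of_iso ?_ (KFn.Mem.opn hG (polyCoord ∅ l) hft hb (mem_empty hG hE n)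
      (coord_cls_mem ih l hl))
    have hval : ∀ (R : Type) [CommRing R] [Algebra K R] (x : Fin (n + 1) → R),
        aeval x (rename Fin.succ l) = aeval (fun i => x (Fin.succ i)) l := by
      intro R _ _ x
      rw [aeval_rename]
      rfl
    exact
      { hom := fun p => ⟨⟨(p.1.1.1, fun i => p.1.1.2 (Fin.succ i)), fun _ h => h.elim⟩, by
          have := p.2
          change IsUnit (aeval p.1.1.2 (rename Fin.succ l)) at this
          rw [hval] at this
          exact this⟩
        inv := fun {R} _ _ q => ⟨⟨(q.1.1.1, Fin.cons (-(aeval q.1.1.2 g *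
          ((IsUnit.unit (a := aeval q.1.1.2 l) q.2)⁻¹ : Rˣ))) q.1.1.2), by
            intro l' hl'
            rw [Set.mem_singleton_iff.1 hl', hev']
            have h1 : aeval q.1.1.2 l * ((IsUnit.unit (a := aeval q.1.1.2 l) q.2)⁻¹ : Rˣ) = 1 :=
              IsUnit.mul_val_inv _
            linear_combination (-aeval q.1.1.2 g) * h1⟩, by
            change IsUnit (aeval (Fin.cons _ q.1.1.2 : Fin (n + 1) → R) (rename Fin.succ l))
            rw [hval]
            exact q.2⟩
        inv_hom := fun {R} _ _ p => by
          apply Subtype.ext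
          apply Subtype.ext
          refine Prod.ext rfl ?_
          have hu : IsUnit (aeval (fun i => p.1.1.2 (Fin.succ i)) l) := by
            have := p.2
            change IsUnit (aeval p.1.1.2 (rename Fin.succ l)) at this
            rw [hval] at this
            exact this
          have h1 : aeval (fun i => p.1.1.2 (Fin.succ i)) l * ((hu.unit)⁻¹ : Rˣ) = 1 :=
            IsUnit.mul_val_inv _
          have h2 : aeval (fun i => p.1.1.2 (Fin.succ i)) l * p.1.1.2 0
              + aeval (fun i => p.1.1.2 (Fin.succ i)) g = 0 := by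
            rw [← hev]
            exact p.1.2 F (Set.mem_singleton F)
          have h3 : -(aeval (fun i => p.1.1.2 (Fin.succ i)) g * ((hu.unit)⁻¹ : Rˣ))
              = p.1.1.2 0 := by
            linear_combination (p.1.1.2 0) * h1 - ((hu.unit)⁻¹ : Rˣ) * h2
          change (Fin.cons (-(aeval (fun i => p.1.1.2 (Fin.succ i)) g * ((hu.unit)⁻¹ : Rˣ)))
            (fun i => p.1.1.2 (Fin.succ i)) : Fin (n + 1) → R) = p.1.1.2
          rw [h3]
          exact cons_succ p.1.1.2
        hom_inv := fun q => rfl
        nat := fun _ _ => rfl }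
  · -- the closed part
    refine KFn.Mem.of_iso (F' := (V E (insert g {l})).line) ?_ (KFn.Mem.line hG
      (ih {l} g (fun l' hl' => by rw [Set.mem_singleton_iff.1 hl']; exact hl) hg))
    have hval : ∀ (R : Type) [CommRing R] [Algebra K R] (x : Fin (n + 1) → R),
        aeval x (rename Fin.succ l) = aeval (fun i => x (Fin.succ i)) l := by
      intro R _ _ x
      rw [aeval_rename]
      rfl
    exact
      { hom := fun p => (⟨(p.1.1.1, fun i => p.1.1.2 (Fin.succ i)), by
          have h1 : aeval (fun i => p.1.1.2 (Fin.succ i)) l = 0 := by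
            rw [← hval]
            exact p.2
          have h2 : aeval (fun i => p.1.1.2 (Fin.succ i)) l * p.1.1.2 0
              + aeval (fun i => p.1.1.2 (Fin.succ i)) g = 0 := by
            rw [← hev]
            exact p.1.2 F (Set.mem_singleton F)
          intro l' hl'
          rcases Set.mem_insert_iff.1 hl' with h | h
          · rw [h]
            linear_combination h2 - p.1.1.2 0 * h1
          · rw [Set.mem_singleton_iff.1 h]
            exact h1⟩, p.1.1.2 0)
        inv := fun {R} _ _ q => ⟨⟨(q.1.1.1, Fin.cons q.2 q.1.1.2), by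
          intro l' hl'
          have h1 : aeval q.1.1.2 l = 0 := q.1.2 l (Set.mem_insert_of_mem _ (Set.mem_singleton l))
          have h2 : aeval q.1.1.2 g = 0 := q.1.2 g (Set.mem_insert _ _)
          rw [Set.mem_singleton_iff.1 hl', hev', h1, h2]
          ring⟩, by
            change aeval (Fin.cons _ q.1.1.2 : Fin (n + 1) → R) (rename Fin.succ l) = 0
            rw [hval]
            exact q.1.2 l (Set.mem_insert_of_mem _ (Set.mem_singleton l))⟩
        inv_hom := fun p => by
          apply Subtype.ext
          apply Subtype.ext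
          exact Prod.ext rfl (cons_succ p.1.1.2)
        hom_inv := fun q => rfl
        nat := fun _ _ => rfl }

theorem exists_root [IsAlgClosed K] (a b c : K) (ha : a ≠ 0) :
    ∃ r, a * r ^ 2 + b * r + c = 0 := by
  have h := IsAlgClosed.exists_root (Polynomial.C a * Polynomial.X ^ 2 +
    Polynomial.C b * Polynomial.X + Polynomial.C c) (by
      rw [Polynomial.degree_quadratic ha]
      decide)
  obtain ⟨r, hr⟩ := h
  refine ⟨r, ?_⟩
  rw [Polynomial.IsRoot.def] at hr
  simpa using hr

/-- one variable -/
theorem mem_one [IsAlgClosed K] (hG : KOps K G) (hE : G E) (a b c : K) (ha : a ≠ 0) :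
    (V E ({C a * X 0 ^ 2 + C b * X 0 + C c} : Set (MvPolynomial (Fin 1) K))).Mem G := by
  obtain ⟨r, hr⟩ := exists_root a b c ha
  set F : MvPolynomial (Fin 1) K := C a * X 0 ^ 2 + C b * X 0 + C c with hF
  -- the other root
  set s : K := -(b / a) - r with hs
  have hb : b = -(a * (r + s)) := by
    rw [hs]
    field_simp
    ring
  have hc : c = a * (r * s) := by
    rw [hb] at hr
    linear_combination hr
  have hev : ∀ (R : Type) [CommRing R] [Algebra K R] (x : Fin 1 → R),
      aeval x F = algebraMap K R a * ((x 0 - algebraMap K R r) * (x 0 - algebraMap K R s)) := by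
    intro R _ _ x
    rw [hF, hb, hc]
    simp only [map_add, map_mul, map_pow, aeval_X, algHom_C, map_neg]
    ring
  have ha' : ∀ (R : Type) [CommRing R] [Algebra K R] (y : R), algebraMap K R a * y = 0 → y = 0 := by
    intro R _ _ y hy
    have h1 : algebraMap K R a⁻¹ * algebraMap K R a = 1 := by
      rw [← map_mul, inv_mul_cancel₀ ha, map_one]
    linear_combination (algebraMap K R a⁻¹) * hy - y * h1
  let u : KFn.Coord (V E {F}) := polyCoord {F} (X 0 - C r)
  have hu : ∀ (R : Type) [CommRing R] [Algebra K R] (p : (V E {F}).obj R),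
      u.val p = p.1.2 0 - algebraMap K R r := by
    intro R _ _ p
    change aeval p.1.2 (X 0 - C r) = _
    rw [map_sub, aeval_X, algHom_C]
  refine KFn.Mem.glue hG u ?_ ?_
  · by_cases hrs : r = s
    · apply KFn.Mem.of_trivial hG
      intro A _ _ p
      have h1 := p.2
      change IsUnit (u.val p.1) at h1
      rw [hu] at h1
      have h2 := p.1.2 F (Set.mem_singleton F)
      rw [hev] at h2
      have h3 := ha' A _ h2
      rw [← hrs] at h3
      have h4 := (h1.mul h1)
      rw [h3] at h4
      exact isUnit_zero_iff.1 h4 |> fun h => subsingleton_of_zero_eq_one h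
    · have hd : s - r ≠ 0 := fun h => hrs (sub_eq_zero.1 h).symm
      refine KFn.Mem.of_iso ?_ (KFn.Mem.of_rep hG (rep_homFn E) hE)
      exact
        { hom := fun p => p.1.1.1
          inv := fun {R} _ _ q => ⟨⟨(q, fun _ => algebraMap K R s), by
            intro l hl
            rw [Set.mem_singleton_iff.1 hl, hev]
            ring⟩, by
              refine (congrArg IsUnit (hu R _)).mpr ?_
              change IsUnit (algebraMap K R s - algebraMap K R r)
              rw [← map_sub]
              exact (IsUnit.mk0 _ hd).map _⟩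
          inv_hom := fun {R} _ _ p => by
            apply Subtype.ext
            apply Subtype.ext
            refine Prod.ext rfl ?_
            have h1 := p.2
            change IsUnit (u.val p.1) at h1
            rw [hu] at h1
            have h2 := p.1.2 F (Set.mem_singleton F)
            rw [hev] at h2
            have h3 := ha' R _ h2
            have h4 := (h1.mul_right_eq_zero).1 h3
            funext i
            rw [Subsingleton.elim i 0]
            exact (sub_eq_zero.1 h4).symm
          hom_inv := fun _ => rfl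
          nat := fun _ _ => rfl }
  · refine KFn.Mem.of_iso ?_ (KFn.Mem.of_rep hG (rep_homFn E) hE)
    exact
      { hom := fun p => p.1.1.1
        inv := fun {R} _ _ q => ⟨⟨(q, fun _ => algebraMap K R r), by
          intro l hl
          rw [Set.mem_singleton_iff.1 hl, hev]
          ring⟩, by
            exact (hu R _).trans (sub_self _)⟩
        inv_hom := fun {R} _ _ p => by
          apply Subtype.ext
          apply Subtype.ext
          refine Prod.ext rfl ?_
          have h1 := p.2
          change u.val p.1 = 0 at h1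
          rw [hu] at h1
          funext i
          rw [Subsingleton.elim i 0]
          exact (sub_eq_zero.1 h1).symm
        hom_inv := fun _ => rfl
        nat := fun _ _ => rfl }

theorem cons_succ_succ {R : Type} {n : ℕ} (x : Fin (n + 2) → R) :
    (Fin.cons (x 0) (Fin.cons (x 1) (fun i => x (Fin.succ (Fin.succ i))) : Fin (n + 1) → R) :
      Fin (n + 2) → R) = x := by
  funext i
  refine Fin.cases rfl (fun j => ?_) i
  exact Fin.cases rfl (fun k => rfl) j

/-- removing a square by an isotropic vector -/
theorem mem_two [IsAlgClosed K] (hG : KOps K G) (hE : G E) {n : ℕ} (ih : Quadrics G E (n + 1))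
    (a : K) (ha : a ≠ 0) (l g : MvPolynomial (Fin (n + 1)) K) (hl : l.totalDegree ≤ 1)
    (hg : g.totalDegree ≤ 2) :
    (V E {C a * X 0 ^ 2 + rename Fin.succ l * X 0 + rename Fin.succ g}).Mem G := by
  obtain ⟨b, l1, hl1, hlb⟩ := decomp1 l hl
  obtain ⟨c, l2, g2, hl2, hg2, hgc⟩ := decomp2 g hg
  obtain ⟨r, hr⟩ := exists_root a b c ha
  set F : MvPolynomial (Fin (n + 2)) K :=
    C a * X 0 ^ 2 + rename Fin.succ l * X 0 + rename Fin.succ g with hF
  set lam : MvPolynomial (Fin (n + 1)) K :=
    C (2 * a * r + b) * X 0 + (C r * rename Fin.succ l1 + rename Fin.succ l2) with hlam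
  set gam : MvPolynomial (Fin (n + 1)) K :=
    C a * X 0 ^ 2 + (rename Fin.succ l1 * X 0 + rename Fin.succ g2) with hgam
  have hr1 : ∀ {m : ℕ} (p : MvPolynomial (Fin m) K) (d : ℕ), p.totalDegree ≤ d →
      (rename Fin.succ p).totalDegree ≤ d := fun p d hp => (totalDegree_rename_le _ _).trans hp
  have hCm : ∀ {m : ℕ} (k : K) (p : MvPolynomial (Fin m) K) (d : ℕ), p.totalDegree ≤ d →
      (C k * p).totalDegree ≤ d := by
    intro m k p d hp
    refine (totalDegree_mul _ _).trans ?_
    rw [totalDegree_C, zero_add]
    exact hp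
  have hadd : ∀ {m : ℕ} (p q : MvPolynomial (Fin m) K) (d : ℕ), p.totalDegree ≤ d →
      q.totalDegree ≤ d → (p + q).totalDegree ≤ d := fun p q d hp hq =>
    (totalDegree_add p q).trans (max_le hp hq)
  have hX : (X 0 : MvPolynomial (Fin (n + 1)) K).totalDegree ≤ 1 := by
    rw [totalDegree_X]
  have hlam1 : lam.totalDegree ≤ 1 :=
    hadd _ _ _ (hCm _ _ _ hX) (hadd _ _ _ (hCm _ _ _ (hr1 _ _ hl1)) (hr1 _ _ hl2))
  have hgam2 : gam.totalDegree ≤ 2 := by
    refine hadd _ _ _ (hCm _ _ _ ?_) (hadd _ _ _ ?_ (hr1 _ _ hg2))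
    · refine (totalDegree_pow _ _).trans ?_
      omega
    · refine (totalDegree_mul _ _).trans ?_
      have := hr1 _ _ hl1
      omega
  have hev : ∀ (R : Type) [CommRing R] [Algebra K R] (x0 x1 : R) (z : Fin n → R),
      aeval (Fin.cons x0 (Fin.cons x1 z : Fin (n + 1) → R) : Fin (n + 2) → R) F =
        algebraMap K R a * x0 ^ 2 + (algebraMap K R b * x1 + aeval z l1) * x0 +
          (algebraMap K R c * x1 ^ 2 + aeval z l2 * x1 + aeval z g2) := by
    intro R _ _ x0 x1 z
    rw [hF]
    simp only [map_add, map_mul, map_pow, aeval_X, algHom_C, aeval_cons_rename, Fin.cons_zero]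
    rw [hlb, hgc]
    simp only [map_add, map_mul, map_pow, aeval_X, algHom_C, aeval_cons_rename, Fin.cons_zero]
  have hev' : ∀ (R : Type) [CommRing R] [Algebra K R] (y0 y1 : R) (z : Fin n → R),
      aeval (Fin.cons y0 (Fin.cons y1 z : Fin (n + 1) → R) : Fin (n + 2) → R)
        (rename Fin.succ lam * X 0 + rename Fin.succ gam) =
        (algebraMap K R (2 * a * r + b) * y1 + (algebraMap K R r * aeval z l1 + aeval z l2)) * y0
          + (algebraMap K R a * y1 ^ 2 + (aeval z l1 * y1 + aeval z g2)) := by
    intro R _ _ y0 y1 z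
    simp only [map_add, map_mul, aeval_X, aeval_cons_rename, Fin.cons_zero]
    rw [hlam, hgam]
    simp only [map_add, map_mul, map_pow, aeval_X, algHom_C, aeval_cons_rename, Fin.cons_zero]
  have key : ∀ (R : Type) [CommRing R] [Algebra K R] (w x1 : R) (z : Fin n → R),
      aeval (Fin.cons (w + algebraMap K R r * x1) (Fin.cons x1 z : Fin (n + 1) → R) :
        Fin (n + 2) → R) F =
      aeval (Fin.cons x1 (Fin.cons w z : Fin (n + 1) → R) : Fin (n + 2) → R)
        (rename Fin.succ lam * X 0 + rename Fin.succ gam) := by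
    intro R _ _ w x1 z
    rw [hev, hev']
    have h1 : algebraMap K R a * algebraMap K R r ^ 2 + algebraMap K R b * algebraMap K R r
        + algebraMap K R c = 0 := by
      rw [← map_pow, ← map_mul, ← map_mul, ← map_add, ← map_add, hr, map_zero]
    simp only [map_add, map_mul, map_ofNat]
    linear_combination x1 ^ 2 * h1
  refine KFn.Mem.of_iso ?_ (mem_lin hG hE ih lam gam hlam1 hgam2)
  exact
    { hom := fun {R} _ _ p => ⟨(p.1.1, Fin.cons (p.1.2 1)
        (Fin.cons (p.1.2 0 - algebraMap K R r * p.1.2 1)
          (fun i => p.1.2 (Fin.succ (Fin.succ i))) : Fin (n + 1) → R)), by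
        intro l' hl'
        rw [Set.mem_singleton_iff.1 hl', ← key]
        have h1 : (Fin.cons (p.1.2 0 - algebraMap K R r * p.1.2 1 + algebraMap K R r * p.1.2 1)
            (Fin.cons (p.1.2 1) (fun i => p.1.2 (Fin.succ (Fin.succ i))) : Fin (n + 1) → R) :
            Fin (n + 2) → R) = p.1.2 := by
          rw [sub_add_cancel]
          exact cons_succ_succ p.1.2
        rw [h1]
        exact p.2 F (Set.mem_singleton F)⟩
      inv := fun {R} _ _ q => ⟨(q.1.1, Fin.cons (q.1.2 1 + algebraMap K R r * q.1.2 0)
        (Fin.cons (q.1.2 0) (fun i => q.1.2 (Fin.succ (Fin.succ i))) : Fin (n + 1) → R)), by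
        intro l' hl'
        rw [Set.mem_singleton_iff.1 hl', key]
        have h1 : (Fin.cons (q.1.2 0)
            (Fin.cons (q.1.2 1) (fun i => q.1.2 (Fin.succ (Fin.succ i))) : Fin (n + 1) → R) :
            Fin (n + 2) → R) = q.1.2 := cons_succ_succ q.1.2
        rw [h1]
        exact q.2 _ (Set.mem_singleton _)⟩
      inv_hom := fun {R} _ _ p => by
        apply Subtype.ext
        refine Prod.ext rfl ?_
        change (Fin.cons (p.1.2 0 - algebraMap K R r * p.1.2 1 + algebraMap K R r * p.1.2 1)
            (Fin.cons (p.1.2 1) (fun i => p.1.2 (Fin.succ (Fin.succ i))) : Fin (n + 1) → R) :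
            Fin (n + 2) → R) = p.1.2
        rw [sub_add_cancel]
        exact cons_succ_succ p.1.2
      hom_inv := fun {R} _ _ q => by
        apply Subtype.ext
        refine Prod.ext rfl ?_
        change (Fin.cons (q.1.2 0)
            (Fin.cons (q.1.2 1 + algebraMap K R r * q.1.2 0 - algebraMap K R r * q.1.2 0)
              (fun i => q.1.2 (Fin.succ (Fin.succ i))) : Fin (n + 1) → R) :
            Fin (n + 2) → R) = q.1.2
        rw [add_sub_cancel_right]
        exact cons_succ_succ q.1.2
      nat := fun {R S} _ _ _ _ f p => by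
        apply Subtype.ext
        refine Prod.ext rfl ?_
        change (fun i => f ((Fin.cons (p.1.2 1)
          (Fin.cons (p.1.2 0 - algebraMap K R r * p.1.2 1)
            (fun i => p.1.2 (Fin.succ (Fin.succ i))) : Fin (n + 1) → R) : Fin (n + 2) → R) i)) =
          (Fin.cons (f (p.1.2 1)) (Fin.cons (f (p.1.2 0) - algebraMap K S r * f (p.1.2 1))
            (fun i => f (p.1.2 (Fin.succ (Fin.succ i)))) : Fin (n + 1) → S) : Fin (n + 2) → S)
        funext i
        refine Fin.cases ?_ (fun j => ?_) i
        · rfl
        · refine Fin.cases ?_ (fun k => ?_) j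
          · simp
          · rfl }

theorem quadrics [IsAlgClosed K] (hG : KOps K G) (hE : G E) (m : ℕ) : Quadrics G E m := by
  induction m with
  | zero =>
    intro L f _ _
    by_cases h : ∀ l ∈ insert f L, l = 0
    · exact mem_point hG hE _ h
    · push Not at h
      obtain ⟨l, hl, h0⟩ := h
      obtain ⟨c, rfl⟩ := C_surjective (Fin 0) l
      exact mem_unit hG _ c (fun h => h0 (by rw [h, C_0])) hl
  | succ n ih =>
    intro L f hL hf
    by_cases hA : ∃ l ∈ L, ∃ i, coeff (Finsupp.single i 1) l ≠ 0
    · -- elimination of a variable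
      obtain ⟨l, hl, i, hi⟩ := hA
      set e : Fin (n + 1) ≃ Fin (n + 1) := Equiv.swap 0 i with he
      have hdeg : ∀ p : MvPolynomial (Fin (n + 1)) K, (rename e p).totalDegree ≤ p.totalDegree :=
        fun p => totalDegree_rename_le _ _
      obtain ⟨a, g, hg, hag⟩ := decomp1 (rename e l) ((hdeg l).trans (hL l hl))
      have ha : a ≠ 0 := by
        have h1 : coeff (Finsupp.single 0 1) (rename e l) = coeff (Finsupp.single i 1) l := by
          have h2 := coeff_rename_mapDomain e e.injective l (Finsupp.single i 1)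
          rw [Finsupp.mapDomain_single, he, Equiv.swap_apply_right] at h2
          exact h2
        rw [hag, coeff_add, coeff_rename_succ, add_zero, coeff_C_mul, coeff_X, if_pos rfl,
          mul_one] at h1
        rw [h1]
        exact hi
      refine KFn.Mem.of_iso (isoRename e (insert f L)) (KFn.Mem.of_iso
        (isoElim _ (C (-a⁻¹) * g) ?_) ?_)
      · intro R _ _ x hx
        have h1 := hx _ ⟨l, Set.mem_insert_of_mem _ hl, rfl⟩
        rw [hag, map_add, map_mul, aeval_X, algHom_C, aeval_rename] at h1
        rw [map_mul, algHom_C, map_neg]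
        have h2 : algebraMap K R a⁻¹ * algebraMap K R a = 1 := by
          rw [← map_mul, inv_mul_cancel₀ ha, map_one]
        change _ + aeval (fun i => x (Fin.succ i)) g = 0 at h1
        linear_combination (algebraMap K R a⁻¹) * h1 - x 0 * h2
      · rw [Set.image_insert_eq, Set.image_insert_eq]
        have hs : ∀ j, ((Fin.cons (C (-a⁻¹) * g) X : Fin (n + 1) → MvPolynomial (Fin n) K)
            j).totalDegree ≤ 1 := by
          intro j
          refine Fin.cases ?_ (fun k => ?_) j
          · rw [Fin.cons_zero]
            refine (totalDegree_mul _ _).trans ?_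
            rw [totalDegree_C, zero_add]
            exact hg
          · rw [Fin.cons_succ, totalDegree_X]
        apply ih
        · rintro _ ⟨_, ⟨p, hp, rfl⟩, rfl⟩
          exact (totalDegree_aeval_le _ hs _).trans ((hdeg p).trans (hL p hp))
        · exact (totalDegree_aeval_le _ hs _).trans ((hdeg f).trans hf)
    · push Not at hA
      have hC : ∀ l ∈ L, l = C (coeff 0 l) := fun l hl => eq_C_of_coeff l (hL l hl) (hA l hl)
      by_cases hB : ∃ l ∈ L, coeff 0 l ≠ 0
      · obtain ⟨l, hl, h0⟩ := hB
        exact mem_unit hG _ _ h0 (by rw [← hC l hl]; exact Set.mem_insert_of_mem _ hl)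
      · push Not at hB
        have hzero : ∀ l ∈ L, l = 0 := fun l hl => by rw [hC l hl, hB l hl, C_0]
        refine KFn.Mem.of_iso (isoCongr (insert f L) {f} ?_) ?_
        · intro R _ _ x
          constructor
          · intro h l hl
            rw [Set.mem_singleton_iff.1 hl]
            exact h f (Set.mem_insert _ _)
          · intro h l hl
            rcases Set.mem_insert_iff.1 hl with h1 | h1
            · rw [h1]
              exact h f (Set.mem_singleton f)
            · rw [hzero l h1, map_zero]
        · obtain ⟨a, l, g, hl, hg, hfe⟩ := decomp2 f hf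
          by_cases ha : a = 0
          · rw [ha, C_0, zero_mul, zero_add] at hfe
            rw [hfe]
            exact mem_lin hG hE ih l g hl hg
          · cases n with
            | zero =>
              obtain ⟨b, rfl⟩ := C_surjective (Fin 0) l
              obtain ⟨c, rfl⟩ := C_surjective (Fin 0) g
              rw [rename_C, rename_C] at hfe
              rw [hfe]
              exact mem_one hG hE a b c ha
            | succ n =>
              rw [hfe]
              exact mem_two hG hE ih a ha l g hl hg

/-- **Affine quadrics over an algebraically closed field.** -/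
theorem quadric [IsAlgClosed K] (hG : KOps K G) (hE : G E) (m : ℕ)
    (L : Finset (MvPolynomial (Fin m) K)) (hL : ∀ l ∈ L, l.totalDegree ≤ 1)
    (f : MvPolynomial (Fin m) K) (hf : f.totalDegree ≤ 2) :
    G (MvPolynomial (Fin m) E ⧸ Ideal.span
      (MvPolynomial.map (algebraMap K E) '' (insert f (L : Set (MvPolynomial (Fin m) K))))) := by
  obtain ⟨b, hb⟩ := rep_V E (insert f (L : Set (MvPolynomial (Fin m) K)))
  have : Algebra.FiniteType K E := hG.ft E hE
  exact quadrics hG hE m L f hL hf _ b
    (KFn.ft_quot (Algebra.FiniteType.trans (S := E) inferInstance inferInstance) _) hb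

end

end Pool.Agent.Helper65.CC
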