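import Pool.Agent.Helper87.CC.Ops

/-!
# Functors of points on algebras over a field

A calculus for proving that algebras which represent explicit functors belong to a class of
finitely generated algebras closed under cut and paste.
-/

namespace Pool.Agent.Helper65.CC

open Pool.Agent.Helper87.CC

/-- functors from commutative `K`-algebras to types -/
structure KFn (K : Type) [Field K] : Type 1 where
  /-- the points with values in `R` -/
  obj : ∀ (R : Type) [CommRing R] [Algebra K R], Type
  /-- functoriality -/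
  map : ∀ {R S : Type} [CommRing R] [CommRing S] [Algebra K R] [Algebra K S],
    (R →ₐ[K] S) → obj R → obj S
  id_map : ∀ {R : Type} [CommRing R] [Algebra K R] (x : obj R), map (AlgHom.id K R) x = x
  comp_map : ∀ {R S T : Type} [CommRing R] [CommRing S] [CommRing T] [Algebra K R] [Algebra K S]
    [Algebra K T] (f : R →ₐ[K] S) (g : S →ₐ[K] T) (x : obj R),
    map (g.comp f) x = map g (map f x)

namespace KFn

variable {K : Type} [Field K]

/-- `(A, a)` represents `F` -/
def Rep (F : KFn K) (A : Type) [CommRing A] [Algebra K A] (a : F.obj A) : Prop :=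
  ∀ (R : Type) [CommRing R] [Algebra K R] (x : F.obj R), ∃! f : A →ₐ[K] R, F.map f a = x

theorem Rep.ext {F : KFn K} {A : Type} [CommRing A] [Algebra K A] {a : F.obj A} (h : F.Rep A a)
    {R : Type} [CommRing R] [Algebra K R] {f g : A →ₐ[K] R} (hfg : F.map f a = F.map g a) :
    f = g :=
  (h R (F.map g a)).unique hfg rfl

theorem Rep.equiv {F : KFn K} {A B : Type} [CommRing A] [CommRing B] [Algebra K A] [Algebra K B]
    {a : F.obj A} {b : F.obj B} (ha : F.Rep A a) (hb : F.Rep B b) : Nonempty (A ≃ₐ[K] B) := by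
  obtain ⟨f, hf, -⟩ := ha B b
  obtain ⟨g, hg, -⟩ := hb A a
  have h1 : g.comp f = AlgHom.id K A := by
    apply ha.ext
    rw [F.comp_map, hf, hg, F.id_map]
  have h2 : f.comp g = AlgHom.id K B := by
    apply hb.ext
    rw [F.comp_map, hg, hf, F.id_map]
  exact ⟨AlgEquiv.ofAlgHom f g h2 h1⟩

/-- natural isomorphisms -/
structure Iso (F G : KFn K) where
  /-- the map -/
  hom : ∀ {R : Type} [CommRing R] [Algebra K R], F.obj R → G.obj R
  /-- the inverse map -/
  inv : ∀ {R : Type} [CommRing R] [Algebra K R], G.obj R → F.obj R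
  inv_hom : ∀ {R : Type} [CommRing R] [Algebra K R] (x : F.obj R), inv (hom x) = x
  hom_inv : ∀ {R : Type} [CommRing R] [Algebra K R] (y : G.obj R), hom (inv y) = y
  nat : ∀ {R S : Type} [CommRing R] [CommRing S] [Algebra K R] [Algebra K S] (f : R →ₐ[K] S)
    (x : F.obj R), G.map f (hom x) = hom (F.map f x)

theorem Iso.nat_inv {F G : KFn K} (e : Iso F G) {R S : Type} [CommRing R] [CommRing S]
    [Algebra K R] [Algebra K S] (f : R →ₐ[K] S) (y : G.obj R) :
    F.map f (e.inv y) = e.inv (G.map f y) := by
  rw [← e.inv_hom (F.map f (e.inv y)), ← e.nat, e.hom_inv]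

/-- the inverse isomorphism -/
def Iso.symm {F G : KFn K} (e : Iso F G) : Iso G F where
  hom := e.inv
  inv := e.hom
  inv_hom := e.hom_inv
  hom_inv := e.inv_hom
  nat f y := e.nat_inv f y

theorem Rep.iso {F G : KFn K} (e : Iso F G) {A : Type} [CommRing A] [Algebra K A] {a : F.obj A}
    (h : F.Rep A a) : G.Rep A (e.hom a) := by
  intro R _ _ y
  obtain ⟨f, hf, hu⟩ := h R (e.inv y)
  refine ⟨f, ?_, ?_⟩
  · change G.map f (e.hom a) = y
    rw [e.nat, hf, e.hom_inv]
  · intro g hg
    apply hu
    rw [← hg, ← e.nat_inv, e.inv_hom]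

/-- the subfunctor of the points with the property `p` -/
def sub (F : KFn K) (p : ∀ {R : Type} [CommRing R] [Algebra K R], F.obj R → Prop)
    (hp : ∀ {R S : Type} [CommRing R] [CommRing S] [Algebra K R] [Algebra K S] (f : R →ₐ[K] S)
      (x : F.obj R), p x → p (F.map f x)) : KFn K where
  obj R _ _ := {x : F.obj R // p x}
  map f x := ⟨F.map f x.1, hp f x.1 x.2⟩
  id_map x := Subtype.ext (F.id_map x.1)
  comp_map f g x := Subtype.ext (F.comp_map f g x.1)

/-- natural functions on `F` with values in the algebra -/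
structure Coord (F : KFn K) where
  /-- the value -/
  val : ∀ {R : Type} [CommRing R] [Algebra K R], F.obj R → R
  nat : ∀ {R S : Type} [CommRing R] [CommRing S] [Algebra K R] [Algebra K S] (f : R →ₐ[K] S)
    (x : F.obj R), f (val x) = val (F.map f x)

/-- the open subfunctor where `u` is invertible -/
def opn (F : KFn K) (u : Coord F) : KFn K :=
  F.sub (fun x => IsUnit (u.val x)) (fun f x h => by rw [← u.nat]; exact h.map f)

/-- the closed subfunctor where `u` vanishes -/
def cls (F : KFn K) (u : Coord F) : KFn K :=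
  F.sub (fun x => u.val x = 0) (fun f x h => by rw [← u.nat, h, map_zero])

theorem Rep.opn {F : KFn K} (u : Coord F) {A : Type} [CommRing A] [Algebra K A] {a : F.obj A}
    (h : F.Rep A a) : ∃ b, (F.opn u).Rep (Localization.Away (u.val a)) b := by
  have h0 : IsUnit (u.val (F.map (IsScalarTower.toAlgHom K A (Localization.Away (u.val a))) a)) := by
    rw [← u.nat]; exact IsLocalization.Away.algebraMap_isUnit (u.val a)
  refine ⟨⟨_, h0⟩, ?_⟩
  intro R _ _ x
  obtain ⟨f, hf, hu⟩ := h R x.1
  have hunit : IsUnit ((f : A →+* R) (u.val a)) := by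
    change IsUnit (f (u.val a))
    rw [u.nat, hf]
    exact x.2
  let g0 : Localization.Away (u.val a) →ₐ[K] R :=
    { IsLocalization.Away.lift (u.val a) (g := (f : A →+* R)) hunit with
      commutes' := fun k => by
        rw [IsScalarTower.algebraMap_apply K A (Localization.Away (u.val a))]
        change IsLocalization.Away.lift (u.val a) (g := (f : A →+* R)) hunit _ = _
        exact (IsLocalization.Away.lift_eq _ _ _).trans (f.commutes k) }
  have hg0 : g0.comp (IsScalarTower.toAlgHom K A (Localization.Away (u.val a))) = f := by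
    ext b
    change IsLocalization.Away.lift (u.val a) (g := (f : A →+* R)) hunit _ = _
    exact IsLocalization.Away.lift_eq _ _ _
  refine ⟨g0, ?_, ?_⟩
  · apply Subtype.ext
    change F.map _ (F.map _ a) = x.1
    rw [← F.comp_map, hg0, hf]
  · intro g hg
    have h1 : g.comp (IsScalarTower.toAlgHom K A (Localization.Away (u.val a))) = f := by
      apply hu
      change F.map _ a = x.1
      rw [F.comp_map]
      exact congrArg Subtype.val hg
    apply AlgHom.coe_ringHom_injective
    apply IsLocalization.ringHom_ext (Submonoid.powers (u.val a))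
    have h2 := h1.trans hg0.symm
    ext b
    exact DFunLike.congr_fun h2 b

theorem Rep.cls {F : KFn K} (u : Coord F) {A : Type} [CommRing A] [Algebra K A] {a : F.obj A}
    (h : F.Rep A a) : ∃ b, (F.cls u).Rep (A ⧸ Ideal.span {u.val a}) b := by
  have h0 : u.val (F.map (Ideal.Quotient.mkₐ K (Ideal.span {u.val a})) a) = 0 := by
    rw [← u.nat]
    exact Ideal.Quotient.eq_zero_iff_mem.2 (Ideal.mem_span_singleton_self _)
  refine ⟨⟨_, h0⟩, ?_⟩
  intro R _ _ x
  obtain ⟨f, hf, hu⟩ := h R x.1
  have hz : f (u.val a) = 0 := by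
    rw [u.nat, hf]
    exact x.2
  have hz' : ∀ b ∈ Ideal.span {u.val a}, f b = 0 := by
    intro b hb
    obtain ⟨c, rfl⟩ := Ideal.mem_span_singleton'.1 hb
    rw [map_mul, hz, mul_zero]
  have hcomp : (Ideal.Quotient.liftₐ (Ideal.span {u.val a}) f hz').comp
      (Ideal.Quotient.mkₐ K (Ideal.span {u.val a})) = f := by
    ext b
    rfl
  refine ⟨Ideal.Quotient.liftₐ (Ideal.span {u.val a}) f hz', ?_, ?_⟩
  · apply Subtype.ext
    change F.map _ (F.map _ a) = x.1
    rw [← F.comp_map, hcomp, hf]
  · intro g hg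
    have h1 : g.comp (Ideal.Quotient.mkₐ K (Ideal.span {u.val a})) = f := by
      apply hu
      change F.map _ a = x.1
      rw [F.comp_map]
      exact congrArg Subtype.val hg
    apply Ideal.Quotient.algHom_ext
    rw [h1, hcomp]

/-- the product with the affine line -/
def line (F : KFn K) : KFn K where
  obj R _ _ := F.obj R × R
  map f x := (F.map f x.1, f x.2)
  id_map x := Prod.ext (F.id_map x.1) rfl
  comp_map f g x := Prod.ext (F.comp_map f g x.1) rfl

theorem Rep.line {F : KFn K} {A : Type} [CommRing A] [Algebra K A] {a : F.obj A}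
    (h : F.Rep A a) : ∃ b, F.line.Rep (Polynomial A) b := by
  refine ⟨(F.map (IsScalarTower.toAlgHom K A (Polynomial A)) a, Polynomial.X), ?_⟩
  intro R _ _ x
  obtain ⟨f, hf, hu⟩ := h R x.1
  let g0 : Polynomial A →ₐ[K] R :=
    { Polynomial.eval₂RingHom (f : A →+* R) x.2 with
      commutes' := fun k => by
        rw [IsScalarTower.algebraMap_apply K A (Polynomial A)]
        change Polynomial.eval₂ (f : A →+* R) x.2 (Polynomial.C _) = _
        rw [Polynomial.eval₂_C]
        exact f.commutes k }
  have hg0 : g0.comp (IsScalarTower.toAlgHom K A (Polynomial A)) = f := by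
    ext b
    change Polynomial.eval₂ (f : A →+* R) x.2 (Polynomial.C b) = _
    rw [Polynomial.eval₂_C]
    rfl
  have hX : g0 Polynomial.X = x.2 := by
    change Polynomial.eval₂ (f : A →+* R) x.2 Polynomial.X = _
    rw [Polynomial.eval₂_X]
  refine ⟨g0, ?_, ?_⟩
  · refine Prod.ext ?_ hX
    change F.map _ (F.map _ a) = x.1
    rw [← F.comp_map, hg0, hf]
  · intro g hg
    have h1 : g.comp (IsScalarTower.toAlgHom K A (Polynomial A)) = f := by
      apply hu
      rw [F.comp_map]
      exact congrArg Prod.fst hg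
    have h2 : g Polynomial.X = x.2 := congrArg Prod.snd hg
    apply AlgHom.coe_ringHom_injective
    apply Polynomial.ringHom_ext
    · intro b
      exact DFunLike.congr_fun (h1.trans hg0.symm) b
    · exact h2.trans hX.symm

/-- the last coordinate of `F.line` -/
def lineCoord (F : KFn K) : Coord F.line where
  val x := x.2
  nat _ _ := rfl

/-- the zero section of the line -/
def zeroSection (F : KFn K) : Iso (F.line.cls F.lineCoord) F where
  hom x := x.1.1
  inv y := ⟨(y, 0), rfl⟩
  inv_hom x := Subtype.ext (Prod.ext rfl x.2.symm)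
  hom_inv _ := rfl
  nat _ _ := rfl

/-- all finitely generated algebras which represent `F` belong to the class -/
def Mem (G : ∀ (R : Type) [CommRing R] [Algebra K R], Prop) (F : KFn K) : Prop :=
  ∀ (A : Type) [CommRing A] [Algebra K A] (a : F.obj A), Algebra.FiniteType K A → F.Rep A a → G A

variable {G : ∀ (R : Type) [CommRing R] [Algebra K R], Prop}

theorem ft_away {A : Type} [CommRing A] [Algebra K A] (h : Algebra.FiniteType K A) (f : A) :
    Algebra.FiniteType K (Localization.Away f) :=
  h.trans (IsLocalization.finiteType_of_monoid_fg (Submonoid.powers f) _)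

theorem ft_quot {A : Type} [CommRing A] [Algebra K A] (h : Algebra.FiniteType K A)
    (I : Ideal A) : Algebra.FiniteType K (A ⧸ I) :=
  h.of_surjective (Ideal.Quotient.mkₐ K I) (Ideal.Quotient.mkₐ_surjective K I)

theorem ft_poly {A : Type} [CommRing A] [Algebra K A] (h : Algebra.FiniteType K A) :
    Algebra.FiniteType K (Polynomial A) :=
  h.trans inferInstance

theorem Mem.of_iso {F F' : KFn K} (e : Iso F F') (h : F'.Mem G) : F.Mem G :=
  fun A _ _ a hA ha => h A (e.hom a) hA (ha.iso e)

theorem Mem.of_rep (hG : KOps K G) {F : KFn K} {A : Type} [CommRing A] [Algebra K A]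
    {a : F.obj A} (ha : F.Rep A a) (h : G A) : F.Mem G := by
  intro B _ _ b hB hb
  obtain ⟨e⟩ := ha.equiv hb
  exact hG.iso A B e h

theorem Mem.glue (hG : KOps K G) {F : KFn K} (u : Coord F) (h1 : (F.opn u).Mem G)
    (h2 : (F.cls u).Mem G) : F.Mem G := fun A _ _ a hA ha => by
  obtain ⟨b, hb⟩ := ha.cls u
  obtain ⟨c, hc⟩ := ha.opn u
  exact hG.glue A (u.val a) hA (h2 _ b (ft_quot hA _) hb) (h1 _ c (ft_away hA _) hc)

theorem Mem.opn (hG : KOps K G) {F : KFn K} (u : Coord F) {A : Type} [CommRing A] [Algebra K A]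
    {a : F.obj A} (hA : Algebra.FiniteType K A) (ha : F.Rep A a) (h : F.Mem G)
    (h2 : (F.cls u).Mem G) : (F.opn u).Mem G := by
  obtain ⟨b, hb⟩ := ha.cls u
  obtain ⟨c, hc⟩ := ha.opn u
  exact Mem.of_rep hG hc (hG.opn A (u.val a) (h A a hA ha) (h2 _ b (ft_quot hA _) hb))

theorem Mem.line (hG : KOps K G) {F : KFn K} (h : F.Mem G) : F.line.Mem G := by
  intro A _ _ a hA ha
  obtain ⟨b, hb⟩ := ha.cls F.lineCoord
  have h1 := hb.iso F.zeroSection
  have h2 := h _ _ (ft_quot hA _) h1
  obtain ⟨c, hc⟩ := h1.line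
  obtain ⟨e⟩ := hc.equiv ha
  exact hG.iso _ _ e (hG.poly _ h2)

/-- a functor with a unit which is zero -/
theorem Mem.of_trivial (hG : KOps K G) {F : KFn K}
    (h : ∀ (A : Type) [CommRing A] [Algebra K A], F.obj A → Subsingleton A) : F.Mem G :=
  fun A _ _ a _ _ => hG.zero A (h A a)

end KFn

end Pool.Agent.Helper65.CC
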