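import Pool.Agent.Helper65.CC.KFn

/-!
# Solution functors of systems of polynomial equations
-/

namespace Pool.Agent.Helper65.CC

open MvPolynomial Pool.Agent.Helper87.CC

noncomputable section

variable {K : Type} [Field K] (E : Type) [CommRing E] [Algebra K E]

/-- the functor of pairs of a homomorphism from `E` and a common zero of the polynomials in `I` -/
def V {m : ℕ} (I : Set (MvPolynomial (Fin m) K)) : KFn K where
  obj R _ _ := {p : (E →ₐ[K] R) × (Fin m → R) // ∀ l ∈ I, aeval p.2 l = 0}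
  map f p := ⟨(f.comp p.1.1, fun i => f (p.1.2 i)), fun l hl => by
    rw [← comp_aeval_apply, p.2 l hl, map_zero]⟩
  id_map _ := rfl
  comp_map _ _ _ := rfl

/-- the functor represented by `E` -/
def homFn : KFn K where
  obj R _ _ := E →ₐ[K] R
  map f p := f.comp p
  id_map _ := rfl
  comp_map _ _ _ := rfl

theorem rep_homFn : (homFn (K := K) E).Rep E (AlgHom.id K E) := fun _ _ _ x =>
  ⟨x, rfl, fun _ hy => hy⟩

theorem aeval_X_eq_map {m : ℕ} (l : MvPolynomial (Fin m) K) :
    aeval (fun i => (X i : MvPolynomial (Fin m) E)) l = MvPolynomial.map (algebraMap K E) l := by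
  induction l using MvPolynomial.induction_on with
  | C a => simp [MvPolynomial.algebraMap_eq, IsScalarTower.algebraMap_apply K E (MvPolynomial (Fin m) E)]
  | add p q hp hq => rw [map_add, map_add, hp, hq]
  | mul_X p i hp => rw [map_mul, map_mul, hp, aeval_X, map_X]

theorem rep_V {m : ℕ} (I : Set (MvPolynomial (Fin m) K)) :
    ∃ b, (V E I).Rep (MvPolynomial (Fin m) E ⧸
      Ideal.span (MvPolynomial.map (algebraMap K E) '' I)) b := by
  set J : Ideal (MvPolynomial (Fin m) E) :=
    Ideal.span (MvPolynomial.map (algebraMap K E) '' I) with hJ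
  let π : MvPolynomial (Fin m) E →ₐ[K] MvPolynomial (Fin m) E ⧸ J := Ideal.Quotient.mkₐ K J
  let ι : E →ₐ[K] MvPolynomial (Fin m) E := IsScalarTower.toAlgHom K E _
  have h0 : ∀ l ∈ I, aeval (fun i => π (X i)) l = 0 := by
    intro l hl
    rw [← comp_aeval_apply]
    rw [aeval_X_eq_map]
    exact Ideal.Quotient.eq_zero_iff_mem.2 (Ideal.subset_span ⟨l, hl, rfl⟩)
  refine ⟨⟨(π.comp ι, fun i => π (X i)), h0⟩, ?_⟩
  intro R _ _ x
  let g : MvPolynomial (Fin m) E →ₐ[K] R :=
    { eval₂Hom (x.1.1 : E →+* R) x.1.2 with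
      commutes' := fun k => by
        rw [IsScalarTower.algebraMap_apply K E (MvPolynomial (Fin m) E)]
        change eval₂ (x.1.1 : E →+* R) x.1.2 (C _) = _
        rw [eval₂_C]
        exact x.1.1.commutes k }
  have hgX : ∀ i, g (X i) = x.1.2 i := fun i => by
    change eval₂ (x.1.1 : E →+* R) x.1.2 (X i) = _
    rw [eval₂_X]
  have hgC : ∀ e, g (C e) = x.1.1 e := fun e => by
    change eval₂ (x.1.1 : E →+* R) x.1.2 (C e) = _
    rw [eval₂_C]
    rfl
  have hg : ∀ b ∈ J, g b = 0 := by
    have : J ≤ RingHom.ker g := by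
      rw [hJ, Ideal.span_le]
      rintro _ ⟨l, hl, rfl⟩
      change g _ = 0
      rw [← aeval_X_eq_map, comp_aeval_apply]
      simp_rw [hgX]
      exact x.2 l hl
    exact fun b hb => this hb
  have hπ : ∀ b, Ideal.Quotient.liftₐ J g hg (π b) = g b := fun b => rfl
  refine ⟨Ideal.Quotient.liftₐ J g hg, ?_, ?_⟩
  · apply Subtype.ext
    refine Prod.ext ?_ ?_
    · ext e
      exact (hπ (C e)).trans (hgC e)
    · funext i
      exact (hπ (X i)).trans (hgX i)
  · intro h hh
    have hh1 := congrArg Subtype.val hh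
    have h1 : ∀ e, h (π (C e)) = x.1.1 e := fun e => DFunLike.congr_fun (congrArg Prod.fst hh1) e
    have h2 : ∀ i, h (π (X i)) = x.1.2 i := fun i => congrFun (congrArg Prod.snd hh1) i
    apply Ideal.Quotient.algHom_ext
    apply AlgHom.coe_ringHom_injective
    apply MvPolynomial.ringHom_ext
    · intro e
      exact (h1 e).trans ((hgC e).symm.trans (hπ (C e)).symm)
    · intro i
      exact (h2 i).trans ((hgX i).symm.trans (hπ (X i)).symm)

variable {E}

/-- systems with the same solutions -/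
def isoCongr {m : ℕ} (I J : Set (MvPolynomial (Fin m) K))
    (h : ∀ (R : Type) [CommRing R] [Algebra K R] (x : Fin m → R),
      (∀ l ∈ I, aeval x l = 0) ↔ ∀ l ∈ J, aeval x l = 0) : KFn.Iso (V E I) (V E J) where
  hom p := ⟨p.1, (h _ _).1 p.2⟩
  inv p := ⟨p.1, (h _ _).2 p.2⟩
  inv_hom _ := rfl
  hom_inv _ := rfl
  nat _ _ := rfl

/-- renaming the variables -/
def isoRename {m : ℕ} (e : Fin m ≃ Fin m) (I : Set (MvPolynomial (Fin m) K)) :
    KFn.Iso (V E I) (V E (rename e '' I)) where
  hom p := ⟨(p.1.1, fun i => p.1.2 (e.symm i)), by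
    rintro _ ⟨l, hl, rfl⟩
    rw [aeval_rename]
    have : (fun i => p.1.2 (e.symm i)) ∘ e = p.1.2 := by
      funext i
      simp
    rw [this]
    exact p.2 l hl⟩
  inv p := ⟨(p.1.1, fun i => p.1.2 (e i)), by
    intro l hl
    have := p.2 _ ⟨l, hl, rfl⟩
    rw [aeval_rename] at this
    exact this⟩
  inv_hom p := by
    apply Subtype.ext
    refine Prod.ext rfl ?_
    funext i
    simp
  hom_inv p := by
    apply Subtype.ext
    refine Prod.ext rfl ?_
    funext i
    simp
  nat _ _ := rfl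

theorem aeval_cons_rename {R : Type} [CommRing R] [Algebra K R] {n : ℕ} (x0 : R) (y : Fin n → R)
    (g : MvPolynomial (Fin n) K) :
    aeval (Fin.cons x0 y : Fin (n + 1) → R) (rename Fin.succ g) = aeval y g := by
  rw [aeval_rename]
  rfl

theorem cons_succ {R : Type} {n : ℕ} (x : Fin (n + 1) → R) :
    (Fin.cons (x 0) (fun i => x (Fin.succ i)) : Fin (n + 1) → R) = x := Fin.cons_self_tail x

/-- eliminating the first variable by the equation `x 0 = h` -/
def isoElim {n : ℕ} (I : Set (MvPolynomial (Fin (n + 1)) K)) (h : MvPolynomial (Fin n) K)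
    (hI : ∀ (R : Type) [CommRing R] [Algebra K R] (x : Fin (n + 1) → R),
      (∀ l ∈ I, aeval x l = 0) → x 0 = aeval (fun i => x (Fin.succ i)) h) :
    KFn.Iso (V E I)
      (V E (aeval (Fin.cons h X : Fin (n + 1) → MvPolynomial (Fin n) K) '' I)) where
  hom p := ⟨(p.1.1, fun i => p.1.2 (Fin.succ i)), by
    rintro _ ⟨l, hl, rfl⟩
    rw [comp_aeval_apply]
    have : (fun i => aeval (fun i => p.1.2 (Fin.succ i))
        ((Fin.cons h X : Fin (n + 1) → MvPolynomial (Fin n) K) i)) = p.1.2 := by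
      funext i
      refine Fin.cases ?_ (fun j => ?_) i
      · rw [Fin.cons_zero]
        exact (hI _ _ p.2).symm
      · rw [Fin.cons_succ, aeval_X]
    rw [this]
    exact p.2 l hl⟩
  inv p := ⟨(p.1.1, Fin.cons (aeval p.1.2 h) p.1.2), by
    intro l hl
    have h1 := p.2 _ ⟨l, hl, rfl⟩
    rw [comp_aeval_apply] at h1
    have : (fun i => aeval p.1.2
        ((Fin.cons h X : Fin (n + 1) → MvPolynomial (Fin n) K) i))
          = Fin.cons (aeval p.1.2 h) p.1.2 := by
      funext i
      refine Fin.cases ?_ (fun j => ?_) i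
      · rw [Fin.cons_zero, Fin.cons_zero]
      · rw [Fin.cons_succ, Fin.cons_succ, aeval_X]
    rw [this] at h1
    exact h1⟩
  inv_hom p := by
    apply Subtype.ext
    refine Prod.ext rfl ?_
    have h1 := hI _ _ p.2
    change (Fin.cons (aeval (fun i => p.1.2 (Fin.succ i)) h) (fun i => p.1.2 (Fin.succ i)) :
      Fin (n + 1) → _) = p.1.2
    rw [← h1]
    exact cons_succ p.1.2
  hom_inv p := rfl
  nat _ _ := rfl

/-- no equations, one more variable -/
def isoLine (n : ℕ) : KFn.Iso (V E (∅ : Set (MvPolynomial (Fin (n + 1)) K)))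
    (V E (∅ : Set (MvPolynomial (Fin n) K))).line where
  hom p := (⟨(p.1.1, fun i => p.1.2 (Fin.succ i)), fun _ h => h.elim⟩, p.1.2 0)
  inv q := ⟨(q.1.1.1, Fin.cons q.2 q.1.1.2), fun _ h => h.elim⟩
  inv_hom p := by
    apply Subtype.ext
    refine Prod.ext rfl ?_
    exact cons_succ p.1.2
  hom_inv q := rfl
  nat _ _ := rfl

/-- no variables, no equations -/
def isoPoint (I : Set (MvPolynomial (Fin 0) K)) (hI : ∀ l ∈ I, l = 0) :
    KFn.Iso (V E I) (homFn E) where
  hom p := p.1.1
  inv q := ⟨(q, fun i => Fin.elim0 i), fun l hl => by rw [hI l hl, map_zero]⟩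
  inv_hom p := by
    apply Subtype.ext
    refine Prod.ext rfl ?_
    funext i
    exact i.elim0
  hom_inv _ := rfl
  nat _ _ := rfl

variable {G : ∀ (R : Type) [CommRing R] [Algebra K R], Prop}

theorem mem_point (hG : KOps K G) (hE : G E) (I : Set (MvPolynomial (Fin 0) K))
    (hI : ∀ l ∈ I, l = 0) : (V E I).Mem G :=
  KFn.Mem.of_iso (isoPoint I hI) (KFn.Mem.of_rep hG (rep_homFn E) hE)

theorem mem_empty (hG : KOps K G) (hE : G E) (n : ℕ) :
    (V E (∅ : Set (MvPolynomial (Fin n) K))).Mem G := by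
  induction n with
  | zero => exact mem_point hG hE _ (fun _ h => h.elim)
  | succ n ih => exact KFn.Mem.of_iso (isoLine n) (KFn.Mem.line hG ih)

theorem mem_unit (hG : KOps K G) {m : ℕ} (I : Set (MvPolynomial (Fin m) K)) (c : K) (hc : c ≠ 0)
    (hI : C c ∈ I) : (V E I).Mem G :=
  KFn.Mem.of_trivial hG fun A _ _ a => by
    have h1 := a.2 _ hI
    rw [algHom_C] at h1
    have h2 : (1 : A) = 0 := by
      rw [← map_one (algebraMap K A), ← inv_mul_cancel₀ hc, map_mul, h1, mul_zero]
    exact subsingleton_of_zero_eq_one h2.symm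

end

end Pool.Agent.Helper65.CC
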